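import Pool.Agent.H.MP_a53ef7_an.A

namespace Pool.Agent.Results.MP_a53ef7_an.No
open scoped ENNReal
open MeasureTheory Set Real

/-- The truncated gap integral for `m = 1`. -/
noncomputable def G {N : Type} [MetricSpace N] (p t : ℝ) (f : ℝ → N) (Ω : Set ℝ) : ℝ≥0∞ :=
  ∫⁻ z in (Ω ×ˢ Ω) ∩ {z : ℝ × ℝ | t ≤ dist (f z.2) (f z.1)},
    ENNReal.ofReal ((dist (f z.2) (f z.1) - t) ^ p / |z.2 - z.1| ^ 2)

/-- For every `p ∈ [0,1)` no constant works (`m = 1`). -/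
def Fails (N : Type) [MetricSpace N] [MeasurableSpace N] : Prop :=
  ∀ p : ℝ, 0 ≤ p → p < 1 → ∀ C : ℝ, 0 < C →
    ∃ (Ω : Set ℝ) (f : ℝ → N) (δ ε : ℝ), Convex ℝ Ω ∧ Measurable f ∧ 0 < δ ∧ δ < ε ∧
      ENNReal.ofReal (C * (δ / ε) ^ (1 - p)) * G p δ f Ω < G p ε f Ω

theorem result : Fails (AddCircle (2 * π)) ∧
    ∀ (N : Type) [MetricSpace N] [MeasurableSpace N] [BorelSpace N] (a : ℝ), 0 < a →
      ∀ γ : Icc (0 : ℝ) a → N, Isometry γ → Fails N :=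
  ⟨fun _ p0 p1 _ hC => H.MP_a53ef7_an.main pi_pos _ H.MP_a53ef7_an.circ p0 p1 hC,
    fun _ _ _ _ _ ha γ hγ _ p0 p1 _ hC => H.MP_a53ef7_an.main ha γ hγ p0 p1 hC⟩

end Pool.Agent.Results.MP_a53ef7_an.No
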